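import Pool.Agent.Helper7.DivSub.Tower

/-!
# Finite index for towers of Ore type over a copy of `Q(A)`

Let `A` be a finitely generated `K`-algebra of finite Gelfand-Kirillov dimension with quotient
division algebra `Q`, and let `D = φ(Q)` be a division subalgebra of `Q` isomorphic to `Q`.  If `Q`
is reached from `D` by a finite tower whose steps are left finite-dimensional extensions and
extensions generated by one element `t` with `t F ⊆ F t + F`, then `Q` is finite-dimensional as a
left `D`-vector space.
-/

open Module

namespace Pool.Agent.Results.MP_7a070a_al.OreTowerIndex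

open Pool.Agent.Helper7.DivSub

theorem result
    {K A Q : Type*} [Field K] [Ring A] [Algebra K A] [Algebra.FiniteType K A]
    [DivisionRing Q] [Algebra K Q] (ι : A →ₐ[K] Q) (hι : IsQuotientDivisionAlgebra ι)
    (hgk : GKdim K A < ⊤)
    (φ : Q →ₐ[K] Q) (D : Subfield Q) (hD : ∀ q : Q, q ∈ D ↔ ∃ p : Q, φ p = q)
    (htower : OreTower D ⊤) :
    Module.Finite D Q := by
  obtain ⟨V, hV, h1, hfrac, hle⟩ := exists_V ι hι
  obtain ⟨s, hs⟩ := htower.finite_span V h1 hfrac (hle.trans_lt hgk) φ D hD
  exact ⟨⟨s, top_le_iff.1 (fun x _ => hs x trivial)⟩⟩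

end Pool.Agent.Results.MP_7a070a_al.OreTowerIndex
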