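import Pool.Agent.Helper7.DivSub.RelVal4

/-!
# No valuation of an intermediate division algebra is trivial on a copy of `Q(A)`

Let `A` be a finitely generated `K`-algebra of finite Gelfand-Kirillov dimension with quotient
division algebra `Q`, and let `D = φ(Q)` be a division subalgebra of `Q` isomorphic to `Q`.  Then for
every intermediate division algebra `D ⊆ E ⊆ Q`, every valuation of `E` which is trivial on `D` is
trivial.
-/

open Module

namespace Pool.Agent.Results.MP_7a070a_al.RelativeValuation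

open Pool.Agent.Helper7.DivSub

theorem result
    {K A Q Γ : Type*} [Field K] [Ring A] [Algebra K A] [Algebra.FiniteType K A]
    [DivisionRing Q] [Algebra K Q] (ι : A →ₐ[K] Q) (hι : IsQuotientDivisionAlgebra ι)
    (hgk : GKdim K A < ⊤)
    (φ : Q →ₐ[K] Q) (E : Subfield Q) (hE : ∀ q : Q, φ q ∈ E)
    [Group Γ] [LinearOrder Γ] [MulLeftMono Γ] (v : E →*₀ WithZero Γ)
    (hadd : ∀ x y : E, v (x + y) ≤ max (v x) (v y))
    (htriv : ∀ q : Q, q ≠ 0 → v ⟨φ q, hE q⟩ = 1) :
    ∀ x : E, x ≠ 0 → v x = 1 := by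
  obtain ⟨V, hV, h1, hfrac, hle⟩ := exists_V ι hι
  exact rel_val_main V h1 hfrac (hle.trans_lt hgk) φ E hE v hadd htriv

end Pool.Agent.Results.MP_7a070a_al.RelativeValuation
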